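import Pool.Agent.L0h80.CR.Law

/-!
# Poisson random rays in the plane: infinite second moment and positive critical intensity

Known (Teixeira and Ungaretti, Ellipses percolation, 2017); kept out of the results folder.

The continuum version. Segments start at the points of a Poisson process of intensity `lam` in
the plane; directions and lengths are i.i.d. If `P (L ≥ s) ≤ C / s ^ 2` for all `s ≥ 1`, then the
critical intensity is positive, for every joint law of the direction and the length. There is a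
law of `L` with `E L < ∞` and `E L ^ 2 = ∞` which satisfies this: `P (L ≥ s) = 1 / s ^ 2` for
`s ≥ 1`.
-/

set_option autoImplicit false

namespace Pool.Agent.L0h80.Known.ContinuumRays

open MeasureTheory ProbabilityTheory Set
open scoped ENNReal NNReal
open Pool.Agent.Helper712_LP (E)
open Pool.Agent.L0h80.CR

/-- The continuum question is answered in the negative.
(1) The model exists for every intensity `lam > 0` and every joint law `W` of `(θ, L)`.
(2) If `L > 0` and `s ^ 2 P (L ≥ s)` is bounded for `s ≥ 1`, then the critical intensity is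
positive, whatever the joint law of the direction and the length.
(3) There is a law `ν` of `L > 0` with `E L < ∞` and `E L ^ 2 = ∞`, such that the critical
intensity is positive for uniform directions independent of the lengths. -/
theorem result :
    (∀ (W : Measure (ℝ × ℝ)) [IsProbabilityMeasure W] (lam : ℝ≥0), 0 < lam →
      ∃ (Ω : Type) (_ : MeasurableSpace Ω) (P : Measure Ω) (_ : IsProbabilityMeasure P)
        (X : ℕ → Ω → E 2) (Y : ℕ → Ω → ℝ × ℝ), Segments P lam W X Y) ∧
    (∀ (W : Measure (ℝ × ℝ)) [IsProbabilityMeasure W], W {y | y.2 ≤ 0} = 0 →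
      (∃ C : ℝ≥0, ∀ s : ℝ, 1 ≤ s → ENNReal.ofReal (s ^ 2) * W {y | s ≤ y.2} ≤ C) →
      0 < critical W) ∧
    (∃ ν : Measure ℝ, IsProbabilityMeasure ν ∧ ν (Iic 0) = 0 ∧
      ∫⁻ l, ENNReal.ofReal l ∂ν < ∞ ∧ ∫⁻ l, ENNReal.ofReal l ^ 2 ∂ν = ∞ ∧
      0 < critical (rays ν)) := by
  have h2 : ∀ (W : Measure (ℝ × ℝ)) [IsProbabilityMeasure W], W {y | y.2 ≤ 0} = 0 →
      (∃ C : ℝ≥0, ∀ s : ℝ, 1 ≤ s → ENNReal.ofReal (s ^ 2) * W {y | s ≤ y.2} ≤ C) →
      0 < critical W := by
    rintro W _ h0 ⟨C, hC⟩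
    exact critical_pos W h0 (4 * C) (tail_bound W C hC)
  refine ⟨fun W _ lam h => exists_segments W lam h, h2, paretoMeasure 1 2, inferInstance,
    pareto_nonpos, ?_, pareto_sq, ?_⟩
  · have h3 : ∀ s : ℝ, 1 ≤ s → ENNReal.ofReal (s ^ 2) *
        rays (paretoMeasure 1 2) {y | s ≤ y.2} ≤ (1 : ℝ≥0) := by
      intro s hs
      have e := rays_snd (paretoMeasure 1 2) (Ici s)
      have e' : {y : ℝ × ℝ | s ≤ y.2} = {y | y.2 ∈ Ici s} := rfl
      rw [e', e, pareto_tail hs]
      exact le_rfl
    have h4 := tail_bound (rays (paretoMeasure 1 2)) 1 h3 1 le_rfl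
    rw [ENNReal.ofReal_one, one_mul] at h4
    have hmp : MeasurePreserving (Prod.snd : ℝ × ℝ → ℝ) (rays (paretoMeasure 1 2))
        (paretoMeasure 1 2) := by
      refine ⟨measurable_snd, ?_⟩
      ext A hA
      rw [Measure.map_apply measurable_snd hA]
      exact rays_snd _ A
    have h5 : ∫⁻ l, ENNReal.ofReal l ∂(paretoMeasure 1 2) =
        ∫⁻ y, ENNReal.ofReal y.2 ∂(rays (paretoMeasure 1 2)) :=
      (hmp.lintegral_comp ENNReal.measurable_ofReal).symm
    rw [h5]
    have h6 : ∀ y : ℝ × ℝ, ENNReal.ofReal y.2 ≤ 1 + {y : ℝ × ℝ | 1 ≤ y.2}.indicator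
        (fun y => ENNReal.ofReal y.2) y := by
      intro y
      by_cases hy : 1 ≤ y.2
      · rw [indicator_of_mem (show y ∈ {y : ℝ × ℝ | 1 ≤ y.2} from hy)]
        exact le_add_self
      · rw [indicator_of_notMem (show y ∉ {y : ℝ × ℝ | 1 ≤ y.2} from hy), add_zero]
        push Not at hy
        exact ENNReal.ofReal_le_one.2 hy.le
    have hms : MeasurableSet {y : ℝ × ℝ | 1 ≤ y.2} :=
      measurableSet_le measurable_const measurable_snd
    calc ∫⁻ y, ENNReal.ofReal y.2 ∂(rays (paretoMeasure 1 2))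
        ≤ ∫⁻ y, (1 + {y : ℝ × ℝ | 1 ≤ y.2}.indicator (fun y => ENNReal.ofReal y.2) y)
          ∂(rays (paretoMeasure 1 2)) := lintegral_mono h6
      _ = 1 + ∫⁻ y in {y : ℝ × ℝ | 1 ≤ y.2}, ENNReal.ofReal y.2 ∂(rays (paretoMeasure 1 2)) := by
          rw [lintegral_add_left measurable_const, lintegral_const, measure_univ, mul_one,
            lintegral_indicator hms]
      _ ≤ 1 + (4 * 1 : ℝ≥0) := add_le_add le_rfl h4
      _ < ∞ := ENNReal.add_lt_top.2 ⟨ENNReal.one_lt_top, ENNReal.coe_lt_top⟩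
  · refine h2 (rays (paretoMeasure 1 2)) ?_ ⟨1, fun s hs => ?_⟩
    · have e := rays_snd (paretoMeasure 1 2) (Iic 0)
      have e' : {y : ℝ × ℝ | y.2 ≤ 0} = {y | y.2 ∈ Iic 0} := rfl
      rw [e', e, pareto_nonpos]
    · have e := rays_snd (paretoMeasure 1 2) (Ici s)
      have e' : {y : ℝ × ℝ | s ≤ y.2} = {y | y.2 ∈ Ici s} := rfl
      rw [e', e, pareto_tail hs]
      exact le_rfl

end Pool.Agent.L0h80.Known.ContinuumRays
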